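import Pool.Agent.Helper92_SBG.Stmts

/-! Module GRD of squad SBG: the greedy set of coordinates (pivots). -/

set_option autoImplicit false
set_option linter.unusedSectionVars false

namespace Pool.Agent.SBG.H81

open Module

variable {ι : Type} [Fintype ι] [DecidableEq ι]

theorem mem_cut (L : Submodule ℚ (ι → ℚ)) (S : ι → Prop) (x : ι → ℚ) :
    x ∈ L ⊓ VS S ↔ x ∈ L ∧ ∀ c, ¬ S c → x c = 0 := Iff.rfl

open Classical in
/-- the pivots -/
noncomputable def piv (L : Submodule ℚ (ι → ℚ)) (r : ι → ℕ) : Finset ι :=
  Finset.univ.filter fun c => ∃ x ∈ L ⊓ VS (fun c' => r c ≤ r c'), x c ≠ 0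

theorem cut_step (L : Submodule ℚ (ι → ℚ)) (r : ι → ℕ) (hr : Function.Injective r) (t : ℕ)
    (c : ι) (hc : r c = t) :
    dm (L ⊓ VS fun c => t ≤ r c) = dm (L ⊓ VS fun c => t + 1 ≤ r c) +
      if c ∈ piv L r then 1 else 0 := by
  classical
  set A : Submodule ℚ (ι → ℚ) := L ⊓ VS fun c => t ≤ r c with hA
  set A' : Submodule ℚ (ι → ℚ) := L ⊓ VS fun c => t + 1 ≤ r c with hA'
  let f : A →ₗ[ℚ] ℚ := (LinearMap.proj c).comp A.subtype
  have hf : ∀ x : A, f x = (x : ι → ℚ) c := fun x => rfl
  have hle : A' ≤ A := by
    intro x hx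
    refine ⟨hx.1, fun c' hc' => hx.2 c' (fun h => hc' ?_)⟩
    exact le_trans (Nat.le_succ t) h
  have hker : LinearMap.ker f = A'.comap A.subtype := by
    ext x
    rw [LinearMap.mem_ker, hf, Submodule.mem_comap, Submodule.subtype_apply]
    constructor
    · intro h
      refine ⟨x.2.1, fun c' hc' => ?_⟩
      by_cases h1 : t ≤ r c'
      · have h2 : r c' = t := by
          have : ¬ t + 1 ≤ r c' := hc'
          omega
        have h3 : c' = c := hr (h2.trans hc.symm)
        rw [h3]
        exact h
      · exact x.2.2 c' h1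
    · intro h
      apply h.2 c
      change ¬ t + 1 ≤ r c
      omega
  have h1 := LinearMap.finrank_range_add_finrank_ker f
  have h2 : finrank ℚ (LinearMap.ker f) = finrank ℚ A' := by
    rw [hker]
    exact (Submodule.comapSubtypeEquivOfLe hle).finrank_eq
  have h3 : finrank ℚ (LinearMap.range f) = if c ∈ piv L r then 1 else 0 := by
    by_cases hp : c ∈ piv L r
    · rw [if_pos hp]
      unfold piv at hp
      rw [Finset.mem_filter] at hp
      obtain ⟨-, x, hx, hx0⟩ := hp
      have hxA : x ∈ A := by
        refine ⟨hx.1, fun c' hc' => hx.2 c' ?_⟩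
        rw [hc]
        exact hc'
      have htop : LinearMap.range f = ⊤ := by
        rw [LinearMap.range_eq_top]
        intro y
        refine ⟨(y / x c) • ⟨x, hxA⟩, ?_⟩
        rw [map_smul, hf, smul_eq_mul]
        field_simp
      rw [htop, finrank_top, finrank_self]
    · rw [if_neg hp]
      have hbot : LinearMap.range f = ⊥ := by
        rw [LinearMap.range_eq_bot]
        apply LinearMap.ext
        intro x
        rw [hf, LinearMap.zero_apply]
        by_contra h
        apply hp
        unfold piv
        rw [Finset.mem_filter]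
        refine ⟨Finset.mem_univ _, x, ⟨x.2.1, fun c' hc' => x.2.2 c' ?_⟩, h⟩
        change ¬ t ≤ r c'
        rw [← hc]
        exact hc'
      rw [hbot, finrank_bot]
  change finrank ℚ A = finrank ℚ A' + _
  rw [← h1, h2, h3, add_comm]

theorem cut_card (L : Submodule ℚ (ι → ℚ)) (r : ι → ℕ) (hr : Function.Injective r) (t : ℕ) :
    ((piv L r).filter fun c => t ≤ r c).card = dm (L ⊓ VS fun c => t ≤ r c) := by
  classical
  obtain ⟨B, hB⟩ : ∃ B : ℕ, ∀ c, r c < B := by
    refine ⟨(Finset.univ.sup r) + 1, fun c => ?_⟩
    exact Nat.lt_succ_of_le (Finset.le_sup (f := r) (Finset.mem_univ c))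
  have hbig : ∀ s, B ≤ s → ((piv L r).filter fun c => s ≤ r c).card =
      dm (L ⊓ VS fun c => s ≤ r c) := by
    intro s hs
    have h1 : ((piv L r).filter fun c => s ≤ r c) = ∅ := by
      rw [Finset.filter_eq_empty_iff]
      intro c _ h
      exact absurd (hB c) (not_lt.2 (hs.trans h))
    have h2 : (L ⊓ VS fun c => s ≤ r c) = ⊥ := by
      rw [eq_bot_iff]
      intro x hx
      rw [Submodule.mem_bot]
      funext c
      apply hx.2 c
      change ¬ s ≤ r c
      have := hB c
      omega
    rw [h1, h2, Finset.card_empty]
    exact (finrank_bot ℚ (ι → ℚ)).symm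
  have key : ∀ m t, B ≤ t + m → ((piv L r).filter fun c => t ≤ r c).card =
      dm (L ⊓ VS fun c => t ≤ r c) := by
    intro m
    induction m with
    | zero => exact fun t ht => hbig t ht
    | succ m ih =>
      intro t ht
      have ih' := ih (t + 1) (by omega)
      by_cases hex : ∃ c, r c = t
      · obtain ⟨c, hc⟩ := hex
        rw [cut_step L r hr t c hc, ← ih']
        by_cases hp : c ∈ piv L r
        · rw [if_pos hp]
          have h1 : ((piv L r).filter fun c => t ≤ r c) =
              insert c ((piv L r).filter fun c => t + 1 ≤ r c) := by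
            ext d
            rw [Finset.mem_insert, Finset.mem_filter, Finset.mem_filter]
            constructor
            · rintro ⟨h2, h3⟩
              by_cases h4 : t + 1 ≤ r d
              · exact Or.inr ⟨h2, h4⟩
              · left
                apply hr
                omega
            · rintro (rfl | ⟨h2, h3⟩)
              · exact ⟨hp, hc.ge⟩
              · exact ⟨h2, by omega⟩
          rw [h1, Finset.card_insert_of_notMem]
          rw [Finset.mem_filter]
          rintro ⟨-, h⟩
          omega
        · rw [if_neg hp, add_zero]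
          apply congrArg Finset.card
          ext d
          rw [Finset.mem_filter, Finset.mem_filter]
          constructor
          · rintro ⟨h2, h3⟩
            refine ⟨h2, ?_⟩
            by_contra h4
            have h5 : r d = t := by omega
            rw [hr (h5.trans hc.symm)] at h2
            exact hp h2
          · rintro ⟨h2, h3⟩
            exact ⟨h2, by omega⟩
      · have h1 : (fun c => t ≤ r c) = fun c => t + 1 ≤ r c := by
          funext c
          apply propext
          constructor
          · intro h
            have : r c ≠ t := fun h2 => hex ⟨c, h2⟩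
            omega
          · intro h
            omega
        have h2 : ((piv L r).filter fun c => t ≤ r c) =
            ((piv L r).filter fun c => t + 1 ≤ r c) := by
          ext d
          rw [Finset.mem_filter, Finset.mem_filter]
          rw [show (t ≤ r d) = (t + 1 ≤ r d) from congrFun h1 d]
        have h3 : (L ⊓ VS fun c => t ≤ r c) = (L ⊓ VS fun c => t + 1 ≤ r c) :=
          congrArg (fun S => L ⊓ VS S) h1
        rw [h2, h3, ih']
  exact key B t (by omega)

theorem grd : GrdStmt := by
  intro ι _ _ L w
  classical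
  let N := Fintype.card ι
  let e : ι ≃ Fin N := Fintype.equivFin ι
  let r : ι → ℕ := fun c => N * w c + (e c : ℕ)
  have hlt : ∀ c, (e c : ℕ) < N := fun c => (e c).2
  have hdiv : ∀ c, r c / N = w c := by
    intro c
    have hN : 0 < N := lt_of_le_of_lt (Nat.zero_le _) (hlt c)
    change (N * w c + (e c : ℕ)) / N = w c
    rw [Nat.mul_add_div hN, Nat.div_eq_of_lt (hlt c), add_zero]
  have hmod : ∀ c, r c % N = (e c : ℕ) := by
    intro c
    change (N * w c + (e c : ℕ)) % N = (e c : ℕ)
    rw [Nat.mul_add_mod, Nat.mod_eq_of_lt (hlt c)]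
  have hr : Function.Injective r := by
    intro c d h
    apply e.injective
    apply Fin.ext
    rw [← hmod c, ← hmod d, h]
  have hiff : ∀ s c, N * s ≤ r c ↔ s ≤ w c := by
    intro s c
    have hN : 0 < N := lt_of_le_of_lt (Nat.zero_le _) (hlt c)
    rw [← hdiv c, Nat.le_div_iff_mul_le hN, mul_comm s N]
  refine ⟨piv L r, ?_, ?_, ?_⟩
  · have h := cut_card L r hr 0
    have h1 : ((piv L r).filter fun c => 0 ≤ r c) = piv L r := by
      rw [Finset.filter_eq_self]
      exact fun c _ => Nat.zero_le _
    have h2 : (L ⊓ VS fun c => 0 ≤ r c) = L := by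
      apply le_antisymm inf_le_left
      intro x hx
      exact ⟨hx, fun c hc => absurd (Nat.zero_le (r c)) hc⟩
    rw [h1, h2] at h
    exact h
  · intro x hx h0
    by_contra hne
    have hex : ∃ n, ∃ c, r c = n ∧ x c ≠ 0 := by
      by_contra hcon
      apply hne
      funext c
      by_contra h
      exact hcon ⟨r c, c, rfl, h⟩
    obtain ⟨c, hc, hxc⟩ := Nat.find_spec hex
    apply hxc
    apply h0
    unfold piv
    rw [Finset.mem_filter]
    refine ⟨Finset.mem_univ _, x, ⟨hx, fun c' hc' => ?_⟩, hxc⟩
    by_contra h
    have h1 : r c' < Nat.find hex := by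
      have : ¬ r c ≤ r c' := hc'
      omega
    exact Nat.find_min hex h1 ⟨c', rfl, h⟩
  · intro s
    have h := cut_card L r hr (N * s)
    have h1 : (fun c => N * s ≤ r c) = fun c => s ≤ w c := by
      funext c
      exact propext (hiff s c)
    have h2 : ((piv L r).filter fun c => N * s ≤ r c) = (piv L r).filter fun c => s ≤ w c := by
      ext d
      rw [Finset.mem_filter, Finset.mem_filter, hiff]
    have h3 : (L ⊓ VS fun c => N * s ≤ r c) = (L ⊓ VS fun c => s ≤ w c) :=
      congrArg (fun S => L ⊓ VS S) h1
    rw [h2, h3] at h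
    exact h

end Pool.Agent.SBG.H81
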