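import Pool.Agent.Helper92_SBG.Stmts

/-! Module IS0 of squad SBG: isotropic subspaces for the first form. -/

set_option autoImplicit false
set_option linter.unusedSectionVars false

namespace Pool.Agent.SBG.H81

open Module Sy

theorem dm_VS {ι : Type} [Fintype ι] [DecidableEq ι] (S : ι → Prop) [DecidablePred S] :
    dm (VS S) = (Finset.univ.filter S).card := by
  let f : (VS S) ≃ₗ[ℚ] ({c // S c} → ℚ) :=
    { toFun := fun x c => (x : ι → ℚ) c
      map_add' := fun x y => rfl
      map_smul' := fun t x => rfl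
      invFun := fun y => ⟨fun c => if h : S c then y ⟨c, h⟩ else 0, fun c hc => dif_neg hc⟩
      left_inv := by
        intro x
        apply Subtype.ext
        funext c
        by_cases h : S c
        · simp [h]
        · simp [h, x.2 c h]
      right_inv := by
        intro y
        funext c
        simp [c.2] }
  rw [dm, f.finrank_eq, finrank_fintype_fun_eq_card, Fintype.card_subtype]

theorem bf0_smul_left {k : ℕ} (t : ℚ) (x y : Ix k → ℚ) : bf0 (t • x) y = t * bf0 x y := by
  simp only [bf0, Finset.mul_sum]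
  refine Finset.sum_congr rfl fun i _ => ?_
  simp only [be0, Pi.smul_apply, smul_eq_mul]; ring

theorem bf0_smul_right {k : ℕ} (t : ℚ) (x y : Ix k → ℚ) : bf0 x (t • y) = t * bf0 x y := by
  rw [bf0_swap, bf0_smul_left, bf0_swap x y]; ring

/-- the first form on a coordinate subspace -/
noncomputable def bl {k : ℕ} (S : Ix k → Prop) : LinearMap.BilinForm ℚ (VS S) :=
  LinearMap.mk₂ ℚ (fun x y => bf0 (x : Ix k → ℚ) (y : Ix k → ℚ))
    (fun _ _ _ => bf0_add_left _ _ _) (fun _ _ _ => bf0_smul_left _ _ _)
    (fun _ _ _ => bf0_add_right _ _ _) (fun _ _ _ => bf0_smul_right _ _ _)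

theorem bl_apply {k : ℕ} (S : Ix k → Prop) (x y : VS S) :
    bl S x y = bf0 (x : Ix k → ℚ) (y : Ix k → ℚ) := rfl

theorem key {k : ℕ} (S P : Ix k → Prop) [DecidablePred S] [DecidablePred P]
    (L : Submodule ℚ (Ix k → ℚ)) (hL : L ≤ VS S) (hiso : ∀ x ∈ L, ∀ y ∈ L, bf0 x y = 0)
    (hP : ∀ x ∈ VS S, (∀ y ∈ VS S, bf0 x y = 0) → x ∈ VS P) :
    2 * dm L ≤ (Finset.univ.filter S).card + (Finset.univ.filter P).card := by
  have hrefl : (bl S).IsRefl := by
    intro x y h
    rw [bl_apply] at h ⊢
    rw [bf0_swap, h, neg_zero]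
  let L' : Submodule ℚ (VS S) := L.comap (VS S).subtype
  have h1 : finrank ℚ L' = dm L := (Submodule.comapSubtypeEquivOfLe hL).finrank_eq
  have h2 := LinearMap.BilinForm.finrank_add_finrank_orthogonal hrefl L'
  have h3 : finrank ℚ L' ≤ finrank ℚ ((bl S).orthogonal L') := by
    apply Submodule.finrank_mono
    intro x hx
    rw [LinearMap.BilinForm.mem_orthogonal_iff]
    intro y hy
    exact hiso _ hy _ hx
  have h4 : finrank ℚ (L' ⊓ (bl S).orthogonal ⊤ : Submodule ℚ (VS S)) ≤ dm (VS P) := by
    have h5 : finrank ℚ (L' ⊓ (bl S).orthogonal ⊤ : Submodule ℚ (VS S)) =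
        finrank ℚ ((L' ⊓ (bl S).orthogonal ⊤).map (VS S).subtype) :=
      (Submodule.finrank_map_subtype_eq _ _).symm
    rw [h5]
    apply Submodule.finrank_mono
    rintro _ ⟨x, ⟨-, hx⟩, rfl⟩
    apply hP _ x.2
    intro y hy
    have h6 := LinearMap.BilinForm.mem_orthogonal_iff.1 hx ⟨y, hy⟩ Submodule.mem_top
    have h7 : bf0 y (x : Ix k → ℚ) = 0 := h6
    rw [bf0_swap, neg_eq_zero] at h7
    exact h7
  have h8 : finrank ℚ (VS S) = (Finset.univ.filter S).card := dm_VS S
  rw [dm_VS P] at h4
  rw [h8, h1] at h2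
  rw [h1] at h3
  omega

/-- a set of coordinates given by a set of symbols and a set of the three further coordinates -/
def Pt {k : ℕ} (p : Sy → Bool) (q : Fin 3 → Bool) : Ix k → Bool
  | Sum.inl x => p x.2
  | Sum.inr j => q j

theorem card_Pt {k : ℕ} (p : Sy → Bool) (q : Fin 3 → Bool) :
    (Finset.univ.filter fun c : Ix k => Pt p q c = true).card =
      k * (Finset.univ.filter fun s => p s = true).card +
        (Finset.univ.filter fun j => q j = true).card := by
  have h1 : (Finset.univ.filter fun c : Ix k => Pt p q c = true).card =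
      ∑ c : Ix k, if Pt p q c = true then 1 else 0 := Finset.card_filter _ _
  have h2 : (∑ i : Fin k, ∑ s : Sy, if Pt (k := k) p q (Sum.inl (i, s)) = true then 1 else 0) =
      k * (Finset.univ.filter fun s => p s = true).card := by
    have h3 : ∀ i : Fin k, (∑ s : Sy, if Pt (k := k) p q (Sum.inl (i, s)) = true then 1 else 0) =
        (Finset.univ.filter fun s => p s = true).card := fun i => (Finset.card_filter _ _).symm
    rw [Finset.sum_congr rfl (fun i _ => h3 i), Finset.sum_const, Finset.card_univ,
      Fintype.card_fin, smul_eq_mul]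
  have h4 : (∑ j : Fin 3, if Pt (k := k) p q (Sum.inr j) = true then 1 else 0) =
      (Finset.univ.filter fun j => q j = true).card := (Finset.card_filter _ _).symm
  rw [h1, Fintype.sum_sum_type, Fintype.sum_prod_type, h2, h4]

/-- the radical of the first form in a coordinate space: test vectors -/
theorem test {k : ℕ} (S : Ix k → Prop) (x : Ix k → ℚ) (h : ∀ y ∈ VS S, bf0 x y = 0)
    (i : Fin k) (s : Sy) (hs : S (Sum.inl (i, s))) : bf0 x (Pi.single (Sum.inl (i, s)) 1) = 0 := by
  apply h
  intro c hc
  rw [Pi.single_apply, if_neg]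
  rintro rfl
  exact hc hs

theorem be0_zero {R : Type*} [CommRing R] (x : Sy → R) : be0 x (fun _ => 0) = 0 := by
  simp [be0]

theorem bf0_single {k : ℕ} (x : Ix k → ℚ) (i : Fin k) (s : Sy) :
    bf0 x (Pi.single (Sum.inl (i, s)) 1) = be0 (fun t => x (Sum.inl (i, t))) (Pi.single s 1) := by
  rw [bf0, Finset.sum_eq_single i]
  · congr 1
    funext t
    by_cases h : t = s
    · subst h; simp
    · rw [Pi.single_eq_of_ne h, Pi.single_eq_of_ne]
      intro h2
      apply h
      have := Sum.inl_injective h2
      exact (Prod.mk.inj this).2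
  · intro j _ hj
    have : (fun t => (Pi.single (Sum.inl (i, s)) (1 : ℚ) : Ix k → ℚ) (Sum.inl (j, t))) =
        fun _ => 0 := by
      funext t
      rw [Pi.single_eq_of_ne]
      intro h2
      apply hj
      have := Sum.inl_injective h2
      exact (Prod.mk.inj this).1
    rw [this, be0_zero]
  · intro h
    exact absurd (Finset.mem_univ _) h

/-- the partner of a symbol -/
def par : Sy → Sy
  | a1 => u1 | a2 => u2 | a3 => u3 | u1 => a1 | u2 => a2 | u3 => a3
  | b1 => v1 | b2 => v2 | b3 => v3 | v1 => b1 | v2 => b2 | v3 => b3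
  | yc => qb | qb => yc
  | c1 => c1 | c2 => c2 | c3 => c3 | yb => yb | qc => qc

theorem be0_par (x : Sy → ℚ) (s : Sy) (hs : par s ≠ s) (h : be0 x (Pi.single (par s) 1) = 0) :
    x s = 0 := by
  cases s <;> simp [par, be0] at h hs <;> exact h

theorem rad_par {k : ℕ} (S : Ix k → Prop) (x : Ix k → ℚ) (h : ∀ y ∈ VS S, bf0 x y = 0)
    (i : Fin k) (s : Sy) (hs : par s ≠ s) (hS : S (Sum.inl (i, par s))) : x (Sum.inl (i, s)) = 0 := by
  have h1 := test S x h i (par s) hS
  rw [bf0_single] at h1
  exact be0_par _ s hs h1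

theorem wt_Pt {k : ℕ} (t : ℕ) : (fun c : Ix k => t ≤ wtI c) =
    fun c => Pt (fun s => decide (t ≤ s.wt)) (fun j => decide (t ≤ (j : ℕ) + 1)) c = true := by
  funext c
  rcases c with ⟨i, s⟩ | j <;> simp [Pt, wtI]

/-- the bound for the coordinates given by `p`, `q` -/
theorem bound {k : ℕ} (L : Submodule ℚ (Ix k → ℚ)) (hiso : ∀ x ∈ L, ∀ y ∈ L, bf0 x y = 0)
    (p : Sy → Bool) (q : Fin 3 → Bool) (hL : L ≤ VS fun c => Pt p q c = true) :
    2 * dm L ≤ k * (Finset.univ.filter fun s => p s = true).card +
      (Finset.univ.filter fun j => q j = true).card +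
      (k * (Finset.univ.filter fun s => (p s && (decide (par s = s) || !(p (par s)))) = true).card +
      (Finset.univ.filter fun j => q j = true).card) := by
  have h := key (fun c : Ix k => Pt p q c = true)
    (fun c => Pt (fun s => p s && (decide (par s = s) || !(p (par s)))) q c = true) L hL hiso (by
      intro x hx hxy c hc
      rcases c with ⟨i, s⟩ | j
      · by_cases h1 : p s = true
        · by_cases h2 : par s = s
          · exact absurd (by simp [Pt, h1, h2]) hc
          · by_cases h3 : p (par s) = true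
            · exact rad_par _ x hxy i s h2 h3
            · exact absurd (by simp [Pt, h1, h3]) hc
        · exact hx _ (fun h4 => h1 h4)
      · exact hx _ hc)
  rw [card_Pt, card_Pt] at h
  exact h

theorem is0 : Is0Stmt := by
  intro k l0 L hL hl0
  have hiso : ∀ x ∈ L, ∀ y ∈ L, bf0 x y = 0 := by
    intro x hx y hy
    have h := hL x hx y hy
    rw [zero_mul, add_zero] at h
    exact (mul_eq_zero.1 h).resolve_left hl0
  have hcut : ∀ (S : Ix k → Prop), ∀ x ∈ L ⊓ VS S, ∀ y ∈ L ⊓ VS S, bf0 x y = 0 :=
    fun S x hx y hy => hiso x hx.1 y hy.1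
  have hdm : ∀ t : ℕ, dm (L ⊓ VS fun c => t ≤ wtI c) ≤
      k * (Finset.univ.filter fun s : Sy => decide (t ≤ s.wt) = true).card +
        (Finset.univ.filter fun j : Fin 3 => decide (t ≤ (j : ℕ) + 1) = true).card := by
    intro t
    refine (Submodule.finrank_mono inf_le_right).trans ?_
    rw [wt_Pt]
    change dm (VS _) ≤ _
    rw [dm_VS, card_Pt]
  refine ⟨?_, ?_, ?_, ?_⟩
  · have h := bound L hiso (fun _ => true) (fun _ => true) (fun x _ c hc => absurd (by cases c <;> rfl) hc)
    have e1 : (Finset.univ.filter fun _ : Sy => true = true).card = 19 := by decide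
    have e2 : (Finset.univ.filter fun s : Sy =>
      (true && (decide (par s = s) || !true)) = true).card = 5 := by decide
    have e3 : (Finset.univ.filter fun _ : Fin 3 => true = true).card = 3 := by decide
    rw [e1, e2, e3] at h
    omega
  · rw [wt_Pt]
    have h := bound (L ⊓ VS fun c => Pt (fun s : Sy => decide (2 ≤ s.wt))
      (fun j => decide (2 ≤ (j : ℕ) + 1)) c = true) (hcut _) (fun s : Sy => decide (2 ≤ s.wt))
      (fun j => decide (2 ≤ (j : ℕ) + 1)) inf_le_right
    have e1 : (Finset.univ.filter fun s : Sy => decide (2 ≤ s.wt) = true).card = 14 := by decide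
    have e2 : (Finset.univ.filter fun s : Sy => (decide (2 ≤ s.wt) && (decide (par s = s) ||
      !(decide (2 ≤ (par s).wt)))) = true).card = 8 := by decide
    have e3 : (Finset.univ.filter fun j : Fin 3 => decide (2 ≤ (j : ℕ) + 1) = true).card = 2 := by
      decide
    rw [e1, e2, e3] at h
    omega
  · have h := hdm 3
    have e1 : (Finset.univ.filter fun s : Sy => decide (3 ≤ s.wt) = true).card = 9 := by decide
    have e3 : (Finset.univ.filter fun j : Fin 3 => decide (3 ≤ (j : ℕ) + 1) = true).card = 1 := by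
      decide
    rw [e1, e3] at h
    omega
  · have h := hdm 4
    have e1 : (Finset.univ.filter fun s : Sy => decide (4 ≤ s.wt) = true).card = 4 := by decide
    have e3 : (Finset.univ.filter fun j : Fin 3 => decide (4 ≤ (j : ℕ) + 1) = true).card = 0 := by
      decide
    rw [e1, e3] at h
    omega

end Pool.Agent.SBG.H81
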